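import Mathlib

/-!
# Everywhere divergent trigonometric series

For every nonincreasing sequence `ρ` of nonnegative numbers with `∑ ρ n ^ 2 = ∞` there are phases
`θ n` such that `∑ ρ n cos (n x + θ n)` diverges at every real `x`.  With `ρ n = n^(-1/2)` this
gives a real trigonometric series that diverges everywhere and has its coefficients in `ℓ^p` for
every `p > 2`.
-/

open Filter Topology Finset

namespace Pool.Agent.Results.MP_85199e_an.EverywhereDivergent

/-- Partial sums `S_N(x)` of the trigonometric series with coefficients `a n`, `b n`, `n ≥ 1`. -/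
noncomputable def partialSum (a b : ℕ → ℝ) (N : ℕ) (x : ℝ) : ℝ :=
  ∑ n ∈ Finset.Icc 1 N, (a n * Real.cos (n * x) + b n * Real.sin (n * x))

/-- The series diverges at every real point: the partial sums have no finite limit. -/
def DivergesEverywhere (a b : ℕ → ℝ) : Prop :=
  ∀ x : ℝ, ¬ ∃ L : ℝ, Tendsto (fun N => partialSum a b N x) atTop (𝓝 L)

section Construction

variable (r : ℕ → ℝ)

/-- half-length of the block starting at `s` -/
noncomputable def M (s : ℕ) : ℕ := ⌈1 / r s⌉₊

/-- starting points of the blocks -/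
noncomputable def st : ℕ → ℕ
  | 0 => 1
  | i + 1 => st i + 2 * M r (st i)

open scoped Classical in
/-- frequency shifts -/
noncomputable def bt : ℕ → ℝ
  | 0 => 0
  | i + 1 => bt i + if r (st r i) / 2 ≤ r (st r (i + 1)) then r (st r i) / 32 else 0

variable {r}

theorem M_pos (hr : ∀ n, 0 < r n) (s : ℕ) : 0 < M r s :=
  Nat.ceil_pos.2 (one_div_pos.2 (hr s))

theorem one_le_M_mul (hr : ∀ n, 0 < r n) (s : ℕ) : 1 ≤ M r s * r s := by
  have h := Nat.le_ceil (1 / r s)
  have := mul_le_mul_of_nonneg_right h (hr s).le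
  rwa [one_div_mul_cancel (hr s).ne'] at this

theorem M_mul_le (hr : ∀ n, 0 < r n) (hr1 : ∀ n, r n ≤ 1) (s : ℕ) : M r s * r s ≤ 2 := by
  have h : (M r s : ℝ) < 1 / r s + 1 := Nat.ceil_lt_add_one (one_div_pos.2 (hr s)).le
  have h2 := mul_lt_mul_of_pos_right h (hr s)
  rw [add_mul, one_div, inv_mul_cancel₀ (hr s).ne', one_mul] at h2
  linarith [hr1 s]

theorem st_lt (hr : ∀ n, 0 < r n) (i : ℕ) : st r i < st r (i + 1) := by
  have h := M_pos hr (st r i)
  change st r i < st r i + 2 * M r (st r i)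
  omega

theorem st_strictMono (hr : ∀ n, 0 < r n) : StrictMono (st r) :=
  strictMono_nat_of_lt_succ (st_lt hr)

theorem exists_idx (hr : ∀ n, 0 < r n) (n : ℕ) : ∃ i, n < st r (i + 1) :=
  ⟨n, (Nat.lt_succ_self n).trans_le ((st_strictMono hr).id_le (n + 1))⟩

open scoped Classical in
/-- index of the block containing `n` -/
noncomputable def idx (r : ℕ → ℝ) (n : ℕ) : ℕ :=
  if h : ∃ i, n < st r (i + 1) then Nat.find h else 0

theorem idx_eq (hr : ∀ n, 0 < r n) {n i : ℕ} (h1 : st r i ≤ n) (h2 : n < st r (i + 1)) :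
    idx r n = i := by
  classical
  unfold idx
  rw [dif_pos (exists_idx hr n), Nat.find_eq_iff]
  refine ⟨h2, fun j hj => not_lt.2 (le_trans ?_ h1)⟩
  exact (st_strictMono hr).monotone hj

open scoped Classical in
/-- the phases -/
noncomputable def th (r : ℕ → ℝ) (n : ℕ) : ℝ :=
  bt r (idx r n) * n + if n < st r (idx r n) + M r (st r (idx r n)) then 0 else Real.pi / 2

theorem bt_le (hr : ∀ n, 0 < r n) (i : ℕ) : bt r i ≤ bt r (i + 1) := by
  classical
  change bt r i ≤ bt r i + if r (st r i) / 2 ≤ r (st r (i + 1)) then r (st r i) / 32 else 0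
  have := hr (st r i)
  split_ifs <;> linarith

theorem bt_mono (hr : ∀ n, 0 < r n) : Monotone (bt r) :=
  monotone_nat_of_le_succ (bt_le hr)

theorem r_st_le (hr : ∀ n, 0 < r n) (hanti : Antitone r) (i : ℕ) :
    r (st r i) ≤ 32 * (bt r (i + 1) - bt r i) + 2 * (r (st r i) - r (st r (i + 1))) := by
  classical
  have h1 : bt r (i + 1) = bt r i +
      if r (st r i) / 2 ≤ r (st r (i + 1)) then r (st r i) / 32 else 0 := rfl
  have h2 : r (st r (i + 1)) ≤ r (st r i) := hanti (st_lt hr i).le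
  rw [h1]
  split_ifs with h
  · linarith
  · push Not at h
    linarith

theorem sum_sq_block (hr : ∀ n, 0 < r n) (hr1 : ∀ n, r n ≤ 1) (hanti : Antitone r) (i : ℕ) :
    ∑ n ∈ Finset.Ico (st r i) (st r (i + 1)), r n ^ 2 ≤ 4 * r (st r i) := by
  calc ∑ n ∈ Finset.Ico (st r i) (st r (i + 1)), r n ^ 2
      ≤ ∑ n ∈ Finset.Ico (st r i) (st r (i + 1)), r (st r i) ^ 2 := by
        refine Finset.sum_le_sum fun n hn => ?_
        exact pow_le_pow_left₀ (hr n).le (hanti (Finset.mem_Ico.1 hn).1) 2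
    _ = 2 * (M r (st r i) * r (st r i)) * r (st r i) := by
        rw [Finset.sum_const, Nat.card_Ico, nsmul_eq_mul]
        have : st r (i + 1) - st r i = 2 * M r (st r i) := by
          change st r i + 2 * M r (st r i) - st r i = _
          omega
        rw [this]
        push_cast
        ring
    _ ≤ 2 * 2 * r (st r i) := by
        have := M_mul_le hr hr1 (st r i)
        have h0 := hr (st r i)
        gcongr
    _ = 4 * r (st r i) := by ring

theorem sum_sq_le (hr : ∀ n, 0 < r n) (hr1 : ∀ n, r n ≤ 1) (hanti : Antitone r) (N : ℕ) :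
    ∑ n ∈ Finset.Ico 1 (st r N), r n ^ 2 ≤ 128 * bt r N + 8 := by
  have key : ∀ N, ∑ n ∈ Finset.Ico 1 (st r N), r n ^ 2
      ≤ 128 * (bt r N - bt r 0) + 8 * (r (st r 0) - r (st r N)) := by
    intro N
    induction N with
    | zero =>
      change ∑ n ∈ Finset.Ico 1 1, r n ^ 2 ≤ _
      simp
    | succ N ih =>
      have h1 : 1 ≤ st r N := by
        have := (st_strictMono hr).monotone (Nat.zero_le N)
        exact this
      rw [← Finset.sum_Ico_consecutive _ h1 (st_lt hr N).le]
      have h2 := sum_sq_block hr hr1 hanti N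
      have h3 := r_st_le hr hanti N
      linarith
  have h := key N
  have h0 : bt r 0 = 0 := rfl
  have h1 := hr1 (st r 0)
  have h2 := hr (st r N)
  rw [h0] at h
  linarith

theorem bt_unbounded (hr : ∀ n, 0 < r n) (hr1 : ∀ n, r n ≤ 1) (hanti : Antitone r)
    (hns : ¬ Summable fun n => r n ^ 2) (B : ℝ) : ∃ N, B < bt r N := by
  by_contra hcon
  push Not at hcon
  refine hns ?_
  refine summable_of_sum_range_le (c := 1 + (128 * B + 8)) (fun n => sq_nonneg _) fun n => ?_
  have h1 : n ≤ st r n := (st_strictMono hr).id_le n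
  have h2 : ∑ i ∈ Finset.range n, r i ^ 2 ≤ ∑ i ∈ Finset.range (st r n), r i ^ 2 :=
    Finset.sum_le_sum_of_subset_of_nonneg (Finset.range_mono h1) fun _ _ _ => sq_nonneg _
  have h3 : 1 ≤ st r n := by
    have := (st_strictMono hr).monotone (Nat.zero_le n)
    exact this
  have h4 : ∑ i ∈ Finset.range (st r n), r i ^ 2 = ∑ i ∈ Finset.range 1, r i ^ 2
      + ∑ i ∈ Finset.Ico 1 (st r n), r i ^ 2 := (Finset.sum_range_add_sum_Ico _ h3).symm
  have h5 := sum_sq_le hr hr1 hanti n
  have h6 := hcon n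
  have h7 : r 0 ^ 2 ≤ 1 := by
    have := pow_le_pow_left₀ (hr 0).le (hr1 0) 2
    simpa using this
  rw [h4, Finset.sum_range_one] at h2
  linarith

/-- every large real number is reached in a good block -/
theorem exists_block (hr : ∀ n, 0 < r n) (hr1 : ∀ n, r n ≤ 1) (hanti : Antitone r)
    (hns : ¬ Summable fun n => r n ^ 2) {y : ℝ} (hy : 0 ≤ y) :
    ∃ i, bt r i ≤ y ∧ y < bt r (i + 1) := by
  classical
  have hex : ∃ i, y < bt r (i + 1) := by
    obtain ⟨N, hN⟩ := bt_unbounded hr hr1 hanti hns y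
    exact ⟨N, hN.trans_le (bt_le hr N)⟩
  refine ⟨Nat.find hex, ?_, Nat.find_spec hex⟩
  by_contra hcon
  push Not at hcon
  cases h : Nat.find hex with
  | zero =>
    rw [h] at hcon
    have h0 : bt r 0 = 0 := rfl
    rw [h0] at hcon
    linarith
  | succ j =>
    rw [h] at hcon
    exact Nat.find_min hex (by omega : j < Nat.find hex) hcon

end Construction

/-- lower bound for sums over half blocks -/
theorem half_block {ρ : ℕ → ℝ} {u v : ℕ} {c : ℝ} {g : ℕ → ℝ} (hρ : ∀ n, 0 ≤ ρ n)
    (hc : 7 / 10 ≤ |c|) (hg : ∀ n ∈ Finset.Ico u v, |g n - c| ≤ 1 / 8)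
    {q : ℝ} (hq : ∀ n ∈ Finset.Ico u v, q ≤ ρ n) :
    (1 / 2 : ℝ) * ((v - u : ℕ) * q) ≤ |∑ n ∈ Finset.Ico u v, ρ n * g n| := by
  have hcard : ∑ n ∈ Finset.Ico u v, q = (v - u : ℕ) * q := by
    rw [Finset.sum_const, Nat.card_Ico, nsmul_eq_mul]
  have h1 : (1 / 2 : ℝ) * ((v - u : ℕ) * q) ≤ ∑ n ∈ Finset.Ico u v, ρ n * (1 / 2) := by
    rw [← hcard, Finset.mul_sum]
    refine Finset.sum_le_sum fun n hn => ?_
    linarith [hq n hn]
  rcases le_or_gt 0 c with h0 | h0
  · rw [abs_of_nonneg h0] at hc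
    refine h1.trans (le_trans ?_ (le_abs_self _))
    refine Finset.sum_le_sum fun n hn => ?_
    have := abs_le.1 (hg n hn)
    exact mul_le_mul_of_nonneg_left (by linarith [this.1]) (hρ n)
  · rw [abs_of_neg h0] at hc
    refine h1.trans (le_trans ?_ (neg_le_abs _))
    rw [← Finset.sum_neg_distrib]
    refine Finset.sum_le_sum fun n hn => ?_
    have := abs_le.1 (hg n hn)
    rw [← mul_neg]
    exact mul_le_mul_of_nonneg_left (by linarith [this.2]) (hρ n)

theorem one_big (ψ : ℝ) : 7 / 10 ≤ |Real.cos ψ| ∨ 7 / 10 ≤ |Real.sin ψ| := by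
  by_contra hcon
  push Not at hcon
  have h := Real.sin_sq_add_cos_sq ψ
  have h1 : Real.cos ψ ^ 2 < (7 / 10) ^ 2 := by
    rw [← sq_abs]
    exact pow_lt_pow_left₀ hcon.1 (abs_nonneg _) two_ne_zero
  have h2 : Real.sin ψ ^ 2 < (7 / 10) ^ 2 := by
    rw [← sq_abs]
    exact pow_lt_pow_left₀ hcon.2 (abs_nonneg _) two_ne_zero
  norm_num at h1 h2
  linarith

theorem cos_lip (a b : ℝ) : |Real.cos a - Real.cos b| ≤ |a - b| := by
  have h := Real.abs_cos_sub_cos_le a b
  exact h

theorem sin_lip (a b : ℝ) : |Real.sin a - Real.sin b| ≤ |a - b| := by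
  have h := Real.abs_sin_sub_sin_le a b
  exact h

/-- The series with amplitudes `ρ` (bounded below by the regularised sequence `r`). -/
theorem diverges {ρ r : ℕ → ℝ} (hρ : ∀ n, 0 ≤ ρ n) (hrρ : ∀ n, r n ≤ ρ n) (hr : ∀ n, 0 < r n)
    (hr1 : ∀ n, r n ≤ 1) (hanti : Antitone r) (hns : ¬ Summable fun n => r n ^ 2) (x : ℝ) :
    ¬ ∃ L : ℝ, Tendsto (fun N => ∑ n ∈ Finset.Icc 1 N, ρ n * Real.cos (n * x + th r n)) atTop
      (𝓝 L) := by
  classical
  rintro ⟨L, hL⟩
  -- Cauchy property
  obtain ⟨N₀, hN₀⟩ := Metric.cauchySeq_iff.1 hL.cauchySeq (1 / 10) (by norm_num)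
  -- choose k large
  obtain ⟨k, hk⟩ := exists_nat_gt ((bt r N₀ + |x|) / (2 * Real.pi))
  have hpi : 0 < 2 * Real.pi := by positivity
  have hk2 : bt r N₀ + |x| < 2 * Real.pi * k := by
    rw [div_lt_iff₀ hpi] at hk
    linarith
  have hbt0 : 0 ≤ bt r N₀ := by
    have := bt_mono hr (Nat.zero_le N₀)
    exact this
  have hxle := abs_le.1 (le_refl |x|)
  obtain ⟨i, hi1, hi2⟩ := exists_block hr hr1 hanti hns (y := 2 * Real.pi * k - x)
    (by linarith [hxle.2])
  -- the block is late
  have hiN : N₀ ≤ i := by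
    by_contra hcon
    push Not at hcon
    have h1 : bt r (i + 1) ≤ bt r N₀ := bt_mono hr hcon
    linarith [hxle.2]
  -- the block is good
  have hstep : bt r (i + 1) = bt r i +
      if r (st r i) / 2 ≤ r (st r (i + 1)) then r (st r i) / 32 else 0 := rfl
  have hgood : r (st r i) / 2 ≤ r (st r (i + 1)) := by
    by_contra hcon
    rw [if_neg hcon, add_zero] at hstep
    linarith
  rw [if_pos hgood] at hstep
  set s := st r i with hs
  set m := M r s with hm
  have hs' : st r (i + 1) = s + 2 * m := rfl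
  have hmpos : 0 < m := M_pos hr s
  have hsN : N₀ ≤ s := hiN.trans ((st_strictMono hr).id_le i)
  have hs1 : 1 ≤ s := by
    have := (st_strictMono hr).monotone (Nat.zero_le i)
    exact this
  set y : ℝ := x + bt r i - 2 * Real.pi * k with hy
  have hy1 : |y| ≤ r s / 32 := by
    rw [abs_le]
    constructor <;> linarith
  -- terms in the block
  have hidx : ∀ n ∈ Finset.Ico s (s + 2 * m), idx r n = i := fun n hn =>
    idx_eq hr (Finset.mem_Ico.1 hn).1 (Finset.mem_Ico.1 hn).2
  have hphase : ∀ n : ℕ, (n : ℝ) * x + bt r i * n = n * y + (k * n : ℕ) * (2 * Real.pi) := by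
    intro n
    rw [hy]
    push_cast
    ring
  have hclose : ∀ n ∈ Finset.Ico s (s + 2 * m), |(n : ℝ) * y - s * y| ≤ 1 / 8 := by
    intro n hn
    obtain ⟨h1, h2⟩ := Finset.mem_Ico.1 hn
    rw [← sub_mul, abs_mul]
    have h3 : |(n : ℝ) - s| ≤ 2 * m := by
      have h4 : (s : ℝ) ≤ n := by exact_mod_cast h1
      have h5 : (n : ℝ) < s + 2 * m := by exact_mod_cast h2
      rw [abs_of_nonneg (by linarith)]
      linarith
    have h6 := M_mul_le hr hr1 s
    calc |(n : ℝ) - s| * |y| ≤ 2 * m * (r s / 32) :=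
          mul_le_mul h3 hy1 (abs_nonneg _) (by positivity)
      _ = (m * r s) / 16 := by ring
      _ ≤ 1 / 8 := by linarith
  have hlow : ∀ n ∈ Finset.Ico s (s + 2 * m), r s / 2 ≤ ρ n := by
    intro n hn
    refine hgood.trans (le_trans ?_ (hrρ n))
    rw [hs']
    exact hanti (Finset.mem_Ico.1 hn).2.le
  have hmr : 1 ≤ m * r s := one_le_M_mul hr s
  -- first half
  have hsum1 : ∑ n ∈ Finset.Ico s (s + m), ρ n * Real.cos (n * x + th r n)
      = ∑ n ∈ Finset.Ico s (s + m), ρ n * Real.cos (n * y) := by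
    refine Finset.sum_congr rfl fun n hn => ?_
    obtain ⟨h1, h2⟩ := Finset.mem_Ico.1 hn
    have h3 := hidx n (Finset.mem_Ico.2 ⟨h1, by omega⟩)
    have h4 : th r n = bt r i * n := by
      unfold th
      rw [h3, ← hs, ← hm, if_pos h2, add_zero]
    rw [h4, hphase, Real.cos_add_nat_mul_two_pi]
  have hsum2 : ∑ n ∈ Finset.Ico (s + m) (s + 2 * m), ρ n * Real.cos (n * x + th r n)
      = ∑ n ∈ Finset.Ico (s + m) (s + 2 * m), ρ n * (-Real.sin (n * y)) := by
    refine Finset.sum_congr rfl fun n hn => ?_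
    obtain ⟨h1, h2⟩ := Finset.mem_Ico.1 hn
    have h3 := hidx n (Finset.mem_Ico.2 ⟨by omega, h2⟩)
    have h4 : th r n = bt r i * n + Real.pi / 2 := by
      unfold th
      rw [h3, ← hs, ← hm, if_neg (by omega)]
    rw [h4, ← add_assoc, hphase, Real.cos_add_pi_div_two, Real.sin_add_nat_mul_two_pi]
  -- differences of partial sums
  set S : ℕ → ℝ := fun N => ∑ n ∈ Finset.Icc 1 N, ρ n * Real.cos (n * x + th r n) with hS
  have hdiff : ∀ u v : ℕ, 1 ≤ u → u ≤ v → S (v - 1) - S (u - 1)
      = ∑ n ∈ Finset.Ico u v, ρ n * Real.cos (n * x + th r n) := by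
    intro u v hu huv
    have e1 : ∀ w : ℕ, 1 ≤ w → Finset.Icc 1 (w - 1) = Finset.Ico 1 w := by
      intro w hw
      ext j
      simp only [Finset.mem_Icc, Finset.mem_Ico]
      omega
    rw [hS]
    beta_reduce
    rw [e1 u hu, e1 v (hu.trans huv),
      ← Finset.sum_Ico_consecutive (fun n => ρ n * Real.cos (n * x + th r n)) hu huv]
    ring
  rcases one_big (s * y) with hbig | hbig
  · have h1 := half_block (ρ := ρ) (u := s) (v := s + m) (c := Real.cos (s * y))
      (g := fun n => Real.cos (n * y)) hρ hbig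
      (fun n hn => (cos_lip _ _).trans
        (hclose n (Finset.mem_Ico.2 ⟨(Finset.mem_Ico.1 hn).1, by
          have := (Finset.mem_Ico.1 hn).2; omega⟩)))
      (q := r s / 2) (fun n hn => hlow n (Finset.mem_Ico.2 ⟨(Finset.mem_Ico.1 hn).1, by
          have := (Finset.mem_Ico.1 hn).2; omega⟩))
    rw [← hsum1, ← hdiff s (s + m) hs1 (by omega)] at h1
    by_cases hs2 : N₀ ≤ s - 1
    · have h2 := hN₀ (s + m - 1) (by omega) (s - 1) hs2
      rw [Real.dist_eq] at h2
      have h3 : ((s + m - s : ℕ) : ℝ) = m := by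
        rw [Nat.add_sub_cancel_left]
      rw [h3] at h1
      change |S (s + m - 1) - S (s - 1)| < 1 / 10 at h2
      linarith
    · -- impossible for s = N₀: shift by using S (s - 1) only when available
      exfalso
      have h4 : s = N₀ := by omega
      have h5 : i ≤ s := (st_strictMono hr).id_le i
      have h6 : i < st r i := by
        clear_value s
        have : ∀ j, j < st r j := by
          intro j
          induction j with
          | zero => exact Nat.one_pos
          | succ j ih => exact lt_of_le_of_lt ih (st_lt hr j)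
        exact this i
      omega
  · have h1 := half_block (ρ := ρ) (u := s + m) (v := s + 2 * m) (c := -Real.sin (s * y))
      (g := fun n => -Real.sin (n * y)) hρ (by rwa [abs_neg])
      (fun n hn => by
        have h := (sin_lip ((n : ℝ) * y) (s * y)).trans
          (hclose n (Finset.mem_Ico.2 ⟨by have := (Finset.mem_Ico.1 hn).1; omega,
            (Finset.mem_Ico.1 hn).2⟩))
        have h' : -Real.sin (n * y) - -Real.sin (s * y)
            = -(Real.sin (n * y) - Real.sin (s * y)) := by ring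
        rw [h', abs_neg]
        exact h)
      (q := r s / 2) (fun n hn => hlow n (Finset.mem_Ico.2 ⟨by
          have := (Finset.mem_Ico.1 hn).1; omega, (Finset.mem_Ico.1 hn).2⟩))
    rw [← hsum2, ← hdiff (s + m) (s + 2 * m) (by omega) (by omega)] at h1
    have h2 := hN₀ (s + 2 * m - 1) (by omega) (s + m - 1) (by omega)
    rw [Real.dist_eq] at h2
    have h3 : ((s + 2 * m - (s + m) : ℕ) : ℝ) = m := by
      have : s + 2 * m - (s + m) = m := by omega
      rw [this]
    rw [h3] at h1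
    change |S (s + 2 * m - 1) - S (s + m - 1)| < 1 / 10 at h2
    linarith

/-- **Phases for everywhere divergence.** -/
theorem exists_phases {ρ : ℕ → ℝ} (hρ : ∀ n, 0 ≤ ρ n) (hanti : Antitone ρ)
    (hns : ¬ Summable fun n => ρ n ^ 2) :
    ∃ θ : ℕ → ℝ, ∀ x : ℝ, ¬ ∃ L : ℝ,
      Tendsto (fun N => ∑ n ∈ Finset.Icc 1 N, ρ n * Real.cos (n * x + θ n)) atTop (𝓝 L) := by
  have hpos : ∀ n, 0 < ρ n := by
    intro n
    by_contra hcon
    have h0 : ρ n = 0 := le_antisymm (not_lt.1 hcon) (hρ n)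
    refine hns ?_
    refine summable_of_ne_finset_zero (s := Finset.range n) fun m hm => ?_
    have h1 : n ≤ m := by simpa using hm
    have h2 : ρ m = 0 := le_antisymm (h0 ▸ hanti h1) (hρ m)
    rw [h2]
    ring
  set r : ℕ → ℝ := fun n => min (ρ n) 1 with hr
  have hrpos : ∀ n, 0 < r n := fun n => lt_min (hpos n) one_pos
  have hr1 : ∀ n, r n ≤ 1 := fun n => min_le_right _ _
  have hrρ : ∀ n, r n ≤ ρ n := fun n => min_le_left _ _
  have hranti : Antitone r := fun a b hab => min_le_min (hanti hab) le_rfl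
  have hrns : ¬ Summable fun n => r n ^ 2 := by
    intro hsum
    refine hns ?_
    have h0 := hsum.tendsto_atTop_zero
    have h1 : ∀ᶠ n in atTop, r n ^ 2 < 1 := h0.eventually (gt_mem_nhds one_pos)
    obtain ⟨N, hN⟩ := eventually_atTop.1 h1
    have h2 : ∀ n, N ≤ n → ρ n ^ 2 = r n ^ 2 := by
      intro n hn
      have h3 := hN n hn
      have h4 : r n < 1 := by
        by_contra hcon
        push Not at hcon
        have : (1 : ℝ) ≤ r n ^ 2 := one_le_pow₀ hcon
        linarith
      have h5 : r n = ρ n := by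
        rw [hr] at h4 ⊢
        beta_reduce at h4 ⊢
        rcases min_lt_iff.1 h4 with h | h
        · exact min_eq_left h.le
        · exact absurd h (lt_irrefl _)
      rw [h5]
    rw [← summable_nat_add_iff N] at hsum ⊢
    refine hsum.congr fun n => ?_
    exact (h2 (n + N) (Nat.le_add_left _ _)).symm
  exact ⟨th r, fun x => diverges hρ hrρ hrpos hr1 hranti hrns x⟩

/-- **Main result.**
(1) Whenever `ρ 1 ≥ ρ 2 ≥ … ≥ 0` and `∑ ρ n ^ 2 = ∞`, there is a real trigonometric series
`∑ (a n cos n x + b n sin n x)` with amplitudes `√(a n ^ 2 + b n ^ 2) = ρ n` that diverges at every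
real `x`.
(2) In particular there is a real trigonometric series that diverges everywhere and satisfies
`∑ (|a n| ^ (2 + ε) + |b n| ^ (2 + ε)) < ∞` for every `ε > 0`. -/
theorem result :
    (∀ ρ : ℕ → ℝ, (∀ n, 0 ≤ ρ n) → Antitone ρ → (¬ Summable fun n => ρ n ^ 2) →
      ∃ a b : ℕ → ℝ, (∀ n, Real.sqrt (a n ^ 2 + b n ^ 2) = ρ n) ∧ DivergesEverywhere a b) ∧
    ∃ a b : ℕ → ℝ,
      (∀ ε : ℝ, 0 < ε → Summable fun n => |a n| ^ (2 + ε) + |b n| ^ (2 + ε)) ∧
      DivergesEverywhere a b := by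
  have gen : ∀ ρ : ℕ → ℝ, (∀ n, 0 ≤ ρ n) → Antitone ρ → (¬ Summable fun n => ρ n ^ 2) →
      ∃ a b : ℕ → ℝ, (∀ n, Real.sqrt (a n ^ 2 + b n ^ 2) = ρ n) ∧ DivergesEverywhere a b := by
    intro ρ hρ hanti hns
    obtain ⟨θ, hθ⟩ := exists_phases hρ hanti hns
    refine ⟨fun n => ρ n * Real.cos (θ n), fun n => -(ρ n * Real.sin (θ n)), fun n => ?_,
      fun x => ?_⟩
    · have : (ρ n * Real.cos (θ n)) ^ 2 + (-(ρ n * Real.sin (θ n))) ^ 2 = ρ n ^ 2 := by
        have h := Real.sin_sq_add_cos_sq (θ n)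
        calc (ρ n * Real.cos (θ n)) ^ 2 + (-(ρ n * Real.sin (θ n))) ^ 2
            = ρ n ^ 2 * (Real.sin (θ n) ^ 2 + Real.cos (θ n) ^ 2) := by ring
          _ = ρ n ^ 2 := by rw [h, mul_one]
      beta_reduce
      rw [this, Real.sqrt_sq (hρ n)]
    · have h := hθ x
      convert h using 3 with L
      refine Filter.tendsto_congr fun N => ?_
      unfold partialSum
      refine Finset.sum_congr rfl fun n _ => ?_
      rw [Real.cos_add]
      ring
  refine ⟨gen, ?_⟩
  set ρ : ℕ → ℝ := fun n => Real.sqrt (1 / ((n : ℝ) + 1)) with hρdef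
  have hρ0 : ∀ n, 0 ≤ ρ n := fun n => Real.sqrt_nonneg _
  have hanti : Antitone ρ := by
    intro m n hmn
    refine Real.sqrt_le_sqrt ?_
    have : (m : ℝ) ≤ n := by exact_mod_cast hmn
    exact one_div_le_one_div_of_le (by positivity) (by linarith)
  have hsq : ∀ n, ρ n ^ 2 = 1 / ((n : ℝ) + 1) := fun n => Real.sq_sqrt (by positivity)
  have hns : ¬ Summable fun n => ρ n ^ 2 := by
    simp_rw [hsq]
    have h := Real.not_summable_one_div_natCast
    intro hs
    refine h ((summable_nat_add_iff 1).1 ?_)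
    refine hs.congr fun n => ?_
    push_cast
    rfl
  obtain ⟨a, b, hab, hdiv⟩ := gen ρ hρ0 hanti hns
  refine ⟨a, b, fun ε hε => ?_, hdiv⟩
  have ha : ∀ n, |a n| ≤ ρ n := by
    intro n
    rw [← hab n]
    exact Real.abs_le_sqrt (by nlinarith [sq_nonneg (b n)])
  have hb : ∀ n, |b n| ≤ ρ n := by
    intro n
    rw [← hab n]
    exact Real.abs_le_sqrt (by nlinarith [sq_nonneg (a n)])
  have hpow : ∀ n, ρ n ^ (2 + ε) = 1 / ((n : ℝ) + 1) ^ (1 + ε / 2) := by
    intro n
    rw [hρdef]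
    beta_reduce
    rw [Real.sqrt_eq_rpow, ← Real.rpow_mul (by positivity), Real.div_rpow (by norm_num)
      (by positivity), Real.one_rpow]
    congr 2
    ring
  have hmain : Summable fun n : ℕ => 2 * (1 / ((n : ℝ) + 1) ^ (1 + ε / 2)) := by
    refine Summable.mul_left 2 ?_
    have h := (Real.summable_one_div_nat_rpow (p := 1 + ε / 2)).2 (by linarith)
    have h2 := (summable_nat_add_iff 1).2 h
    refine h2.congr fun n => ?_
    push_cast
    rfl
  refine Summable.of_nonneg_of_le (fun n => by positivity) (fun n => ?_) hmain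
  rw [← hpow]
  have h1 : |a n| ^ (2 + ε) ≤ ρ n ^ (2 + ε) :=
    Real.rpow_le_rpow (abs_nonneg _) (ha n) (by linarith)
  have h2 : |b n| ^ (2 + ε) ≤ ρ n ^ (2 + ε) :=
    Real.rpow_le_rpow (abs_nonneg _) (hb n) (by linarith)
  linarith

end Pool.Agent.Results.MP_85199e_an.EverywhereDivergent
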